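import Pool.Agent.H.MP_5a4a69_co.A

namespace Pool.Agent.H.MP_5a4a69_co

noncomputable def allLt (p : ℕ → Bool) (n : ℕ) : Bool :=
  Nat.rec (motive := fun _ => Bool) true (fun n ih => and (p n) ih) n

theorem allLt_iff (p : ℕ → Bool) : ∀ n, allLt p n = true ↔ ∀ i < n, p i = true
  | 0 => by simp [allLt]
  | n + 1 => by
    have := allLt_iff p n
    unfold allLt at this ⊢
    simp only [Bool.and_eq_true, this, Nat.forall_lt_succ_right]; exact and_comm

def dg (c x : ℕ) : ℕ := Nat.mod (Nat.shiftRight c (Nat.mul 4 x)) 16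

noncomputable def mk (p : ℕ → Bool) (l : List ℕ) : ℕ :=
  List.rec (motive := fun _ => ℕ) 0 (fun c _ r => Nat.add (Nat.mul 2 r) (cond (p c) 1 0)) l

theorem mk_cons (p : ℕ → Bool) (c : ℕ) (l : List ℕ) : mk p (c :: l) = Nat.bit (p c) (mk p l) := by
  show 2 * mk p l + cond (p c) 1 0 = _
  cases p c <;> simp [Nat.bit]

theorem mk_land (p q : ℕ → Bool) : ∀ l, Nat.land (mk p l) (mk q l) = mk (fun c => p c && q c) l
  | [] => Nat.zero_and 0
  | c :: l => by
    rw [mk_cons, mk_cons, mk_cons, ← mk_land p q l]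
    exact Nat.land_bit _ _ _ _

def pop : ℕ → ℕ → ℕ
  | 0, _ => 0
  | n + 1, x => x % 2 + pop n (x / 2)

theorem pop_mk (p : ℕ → Bool) : ∀ l : List ℕ, pop l.length (mk p l) = l.countP p
  | [] => rfl
  | c :: l => by
    rw [mk_cons, List.length_cons, pop, Nat.bit_div_two, pop_mk p l, List.countP_cons]
    cases p c <;> simp [Nat.bit] <;> omega

theorem pop_zero : ∀ n, pop n 0 = 0
  | 0 => rfl
  | n + 1 => by simp [pop, pop_zero n]

theorem pop_land : ∀ n x, x ≠ 0 → x < 2 ^ n → pop n x = pop n (x &&& (x - 1)) + 1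
  | 0, _, h, h2 => by omega
  | n + 1, x, h, h2 => by
    have e1 : (x &&& (x - 1)) / 2 = x / 2 &&& (x - 1) / 2 := Nat.and_div_two
    have e2 : (x &&& (x - 1)) % 2 = 0 := by
      have := @Nat.and_mod_two_eq_one x (x - 1)
      omega
    rw [pop, pop, e1, e2]
    rcases Nat.mod_two_eq_zero_or_one x with h3 | h3
    · rw [pop_land n (x / 2) (by omega) (by omega), show (x - 1) / 2 = x / 2 - 1 by omega]; omega
    · rw [show (x - 1) / 2 = x / 2 by omega, Nat.and_self]; omega

theorem mk_lt (p : ℕ → Bool) : ∀ l : List ℕ, mk p l < 2 ^ l.length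
  | [] => Nat.one_pos
  | c :: l => by
    have := mk_lt p l
    rw [mk_cons, List.length_cons, pow_succ]
    cases p c <;> simp [Nat.bit] <;> omega

noncomputable def chk (n : ℕ) : ℕ → Bool :=
  Nat.rec (motive := fun _ => ℕ → Bool) (fun x => Nat.beq x 0)
    (fun _ ih x => and (Nat.ble 1 x) (ih (Nat.land x (Nat.sub x 1)))) n

theorem chk_ok (N : ℕ) : ∀ n x, x < 2 ^ N → chk n x = true → pop N x = n
  | 0, x, _, h => by
    have : x = 0 := Nat.eq_of_beq_eq_true h
    rw [this, pop_zero]
  | n + 1, x, hx, h => by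
    have h' : (Nat.ble 1 x && chk n (x &&& (x - 1))) = true := h
    simp only [Bool.and_eq_true] at h'
    have := Nat.le_of_ble_eq_true h'.1
    rw [pop_land N x (by omega) hx, chk_ok N n _ (lt_of_le_of_lt Nat.and_le_left hx) h'.2]

noncomputable def M (a b : ℕ) : ℕ := mk (fun c => Nat.beq (dg c a) b) L

def ne (a b : ℕ) : Bool := not (Nat.beq a b)

noncomputable def T : Bool :=
  allLt (fun b => allLt (fun a => allLt (fun d => allLt (fun c =>
    cond (and (and (ne a c) (ne a d)) (and (ne b c) (ne b d)))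
      (allLt (fun g => allLt (fun e =>
        cond (and (and (and (ne a e) (ne a g)) (and (ne b e) (ne b g)))
          (and (and (ne c e) (ne c g)) (and (ne d e) (ne d g))))
        (chk 6 (Nat.land (Nat.land (M a b) (M c d)) (M e g))) true) g) 12) true) d) 12) b) 12

set_option maxRecDepth 100000 in
theorem hT : T = true := by decide +kernel

noncomputable def enc (f : ℕ → ℕ) (n : ℕ) : ℕ :=
  Nat.rec (motive := fun _ => ℕ) 0 (fun x r => Nat.add r (Nat.mul (f x) (Nat.pow 16 x))) n

noncomputable def allL (p : ℕ → Bool) (l : List ℕ) : Bool :=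
  List.rec (motive := fun _ => Bool) true (fun c _ ih => and (p c) ih) l

theorem allL_iff (p : ℕ → Bool) : ∀ l, allL p l = true ↔ ∀ c ∈ l, p c = true
  | [] => by simp [allL]
  | c :: l => by
    have := allL_iff p l
    unfold allL at this ⊢
    simp only [Bool.and_eq_true, this, List.forall_mem_cons]

noncomputable def srt (l : List ℕ) : ℕ → Bool :=
  List.rec (motive := fun _ => ℕ → Bool) (fun _ => true)
    (fun c _ ih a => and (Nat.ble (Nat.succ a) c) (ih c)) l

theorem srt_ok : ∀ l a, srt l a = true → (a :: l).Pairwise (· < ·)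
  | [], _, _ => by simp
  | c :: l, a, h => by
    have h' : (Nat.ble (a + 1) c && srt l c) = true := h
    simp only [Bool.and_eq_true] at h'
    have h1 := Nat.le_of_ble_eq_true h'.1
    have h2 := srt_ok l c h'.2
    refine List.pairwise_cons.2 ⟨fun x hx => ?_, h2⟩
    rcases List.mem_cons.1 hx with rfl | hx
    · omega
    · have := (List.pairwise_cons.1 h2).1 x hx; omega

noncomputable def U : Bool :=
  and (allL (fun c => and (allLt (fun x => and (Nat.ble (dg c x) 11)
      (and (ne (dg c x) x) (Nat.beq (dg c (dg c x)) x))) 12) (and (Nat.beq (enc (dg c) 12) c)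
      (ne c 0xab8967452301))) L) (srt L 0)

set_option maxRecDepth 100000 in
theorem hU : U = true := by decide +kernel

end Pool.Agent.H.MP_5a4a69_co
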