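import Pool.Agent.H.MP_5a4a69_co.B

namespace Pool.Agent.H.MP_5a4a69_co
open Finset

def ph (f : Fin 12 → Fin 12) : Finset (Finset (Fin 12)) := univ.image fun x => {x, f x}

def Inv (f : Fin 12 → Fin 12) : Prop := ∀ x, f x ≠ x ∧ f (f x) = x

theorem mem_ph {f : Fin 12 → Fin 12} (h : Inv f) {a b : Fin 12} (hab : a ≠ b) :
    ({a, b} : Finset (Fin 12)) ∈ ph f ↔ f a = b := by
  simp only [ph, mem_image, mem_univ, true_and]
  refine ⟨fun ⟨x, hx⟩ => ?_, fun e => ⟨a, by rw [e]⟩⟩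
  have ha : a ∈ ({x, f x} : Finset (Fin 12)) := by rw [hx]; simp
  have hb : b ∈ ({x, f x} : Finset (Fin 12)) := by rw [hx]; simp
  simp only [mem_insert, mem_singleton] at ha hb
  rcases ha with rfl | rfl <;> rcases hb with rfl | hb
  · exact (hab rfl).elim
  · exact hb.symm
  · exact (h _).2
  · exact (hab hb.symm).elim

theorem ph_pm {f : Fin 12 → Fin 12} (h : Inv f) :
    (∀ e ∈ ph f, e.card = 2) ∧ ∀ v, ∃! e, e ∈ ph f ∧ v ∈ e := by
  refine ⟨fun e he => ?_, fun v => ⟨{v, f v}, ⟨(mem_ph h (h v).1.symm).2 rfl, by simp⟩, ?_⟩⟩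
  · obtain ⟨x, -, rfl⟩ := mem_image.1 he
    exact card_pair (h x).1.symm
  · rintro e ⟨he, hv⟩
    obtain ⟨x, -, rfl⟩ := mem_image.1 he
    simp only [mem_insert, mem_singleton] at hv
    rcases hv with rfl | rfl
    · rfl
    · rw [(h x).2, pair_comm]

theorem ph_inj {f g : Fin 12 → Fin 12} (hf : Inv f) (hg : Inv g) (e : ph f = ph g) : f = g :=
  funext fun a => ((mem_ph hg (hf a).1.symm).1 (e ▸ (mem_ph hf (hf a).1.symm).2 rfl)).symm

def F (c : ℕ) (x : Fin 12) : Fin 12 := Fin.ofNat 12 (dg c x)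

theorem ne_iff (a b : ℕ) : ne a b = true ↔ a ≠ b := by
  unfold ne; rw [Bool.not_eq_true', ← Bool.not_eq_true, Nat.beq_eq]

theorem good {c : ℕ} (hc : c ∈ L) : (∀ x < 12, dg c x ≤ 11 ∧ dg c x ≠ x ∧ dg c (dg c x) = x) ∧
    enc (dg c) 12 = c ∧ c ≠ 0xab8967452301 := by
  have h := hU
  unfold U at h
  simp only [Bool.and_eq_true, allL_iff, allLt_iff, ne_iff, Nat.beq_eq, Nat.ble_eq] at h
  exact h.1 c hc

theorem nodup : L.Nodup := by
  have h := hU
  unfold U at h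
  rw [Bool.and_eq_true] at h
  exact (List.pairwise_cons.1 (srt_ok L 0 h.2)).2.imp fun h => h.ne

theorem F_val {c : ℕ} (h : ∀ x < 12, dg c x ≤ 11 ∧ dg c x ≠ x ∧ dg c (dg c x) = x) (x : Fin 12) :
    (F c x : ℕ) = dg c x := by
  have := (h x x.2).1
  show dg c x % 12 = _
  omega

theorem F_inv {c : ℕ} (h : ∀ x < 12, dg c x ≤ 11 ∧ dg c x ≠ x ∧ dg c (dg c x) = x) :
    Inv (F c) := fun x =>
  ⟨fun e => (h x x.2).2.1 (by rw [← F_val h, e]),
    Fin.ext (by rw [F_val h, F_val h]; exact (h x x.2).2.2)⟩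

theorem enc_congr {f g : ℕ → ℕ} : ∀ n, (∀ x < n, f x = g x) → enc f n = enc g n
  | 0, _ => rfl
  | n + 1, h => by
    show enc f n + f n * 16 ^ n = enc g n + g n * 16 ^ n
    rw [enc_congr n fun x hx => h x (by omega), h n (by omega)]

theorem code_inj {c d : ℕ} (h : ∀ x < 12, dg c x ≤ 11 ∧ dg c x ≠ x ∧ dg c (dg c x) = x)
    (h' : ∀ x < 12, dg d x ≤ 11 ∧ dg d x ≠ x ∧ dg d (dg d x) = x) (e1 : enc (dg c) 12 = c)
    (e2 : enc (dg d) 12 = d) (e : ph (F c) = ph (F d)) : c = d := by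
  have := ph_inj (F_inv h) (F_inv h') e
  rw [← e1, ← e2]
  exact enc_congr 12 fun x hx => by
    rw [← F_val h ⟨x, hx⟩, ← F_val h' ⟨x, hx⟩, this]

def D : Finset (Finset (Finset (Fin 12))) := L.toFinset.image fun c => ph (F c)

theorem cnt0 {α : Type} [DecidableEq α] (l : List ℕ) (nd : l.Nodup) (f : ℕ → α) (P : α → Prop)
    [DecidablePred P] (p : ℕ → Bool) (h1 : ∀ x ∈ l, ∀ y ∈ l, f x = f y → x = y)
    (h2 : ∀ x ∈ l, P (f x) ↔ p x = true) : ((l.toFinset.image f).filter P).card = l.countP p := by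
  rw [List.countP_eq_length_filter, ← List.toFinset_card_of_nodup (nd.filter _),
    List.toFinset_filter, filter_image, card_image_of_injOn]
  · exact congrArg _ (filter_congr fun x hx => h2 x (List.mem_toFinset.1 hx))
  · intro x hx y hy hxy
    exact h1 x (List.mem_toFinset.1 (mem_filter.1 hx).1) y
      (List.mem_toFinset.1 (mem_filter.1 hy).1) hxy

theorem cntl (l : List ℕ) (nd : l.Nodup)
    (hl : ∀ c ∈ l, (∀ x < 12, dg c x ≤ 11 ∧ dg c x ≠ x ∧ dg c (dg c x) = x) ∧ enc (dg c) 12 = c)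
    (a b c d e g : Fin 12) (h1 : a < b) (h2 : c < d) (h3 : e < g) :
    ((l.toFinset.image fun c => ph (F c)).filter fun m => ({a, b} : Finset (Fin 12)) ∈ m ∧
      ({c, d} : Finset (Fin 12)) ∈ m ∧ ({e, g} : Finset (Fin 12)) ∈ m).card =
    l.countP fun x => (Nat.beq (dg x a) b && Nat.beq (dg x c) d) && Nat.beq (dg x e) g := by
  refine cnt0 l nd _ _ _ (fun x hx y hy hxy => ?_) (fun x hx => ?_)
  · exact code_inj (hl x hx).1 (hl y hy).1 (hl x hx).2 (hl y hy).2 hxy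
  · have hx := (hl x hx).1
    have e1 := mem_ph (F_inv hx) h1.ne
    have e2 := mem_ph (F_inv hx) h2.ne
    have e3 := mem_ph (F_inv hx) h3.ne
    refine (and_congr e1 (and_congr e2 e3)).trans ?_
    simp only [Bool.and_eq_true, Nat.beq_eq, Fin.ext_iff, F_val hx, and_assoc]

theorem cnt (a b c d e g : Fin 12) (h1 : a < b) (h2 : c < d) (h3 : e < g)
    (hd : (a ≠ c ∧ a ≠ d) ∧ (b ≠ c ∧ b ≠ d))
    (hd2 : ((a ≠ e ∧ a ≠ g) ∧ (b ≠ e ∧ b ≠ g)) ∧ ((c ≠ e ∧ c ≠ g) ∧ (d ≠ e ∧ d ≠ g))) :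
    (D.filter fun m => ({a, b} : Finset (Fin 12)) ∈ m ∧ ({c, d} : Finset (Fin 12)) ∈ m ∧
      ({e, g} : Finset (Fin 12)) ∈ m).card = 6 := by
  have h := hT
  unfold T at h
  simp only [allLt_iff] at h
  have h4 := h b b.2 a h1 d d.2 c h2
  rw [show (and (and (ne a c) (ne a d)) (and (ne b c) (ne b d))) = true by
    simpa only [Bool.and_eq_true, ne_iff, ne_eq, Fin.val_inj] using hd, cond_true, allLt_iff] at h4
  have h5 := (allLt_iff _ _).1 (h4 g g.2) e h3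
  rw [show (and (and (and (ne a e) (ne a g)) (and (ne b e) (ne b g)))
    (and (and (ne c e) (ne c g)) (and (ne d e) (ne d g)))) = true by
    simpa only [Bool.and_eq_true, ne_iff, ne_eq, Fin.val_inj] using hd2, cond_true] at h5
  unfold M at h5
  rw [mk_land, mk_land] at h5
  have h6 := chk_ok L.length 6 _ (mk_lt _ L) h5
  rw [pop_mk] at h6
  exact (cntl L nodup (fun c hc => ⟨(good hc).1, (good hc).2.1⟩) a b c d e g h1 h2 h3).trans h6

theorem two {e : Finset (Fin 12)} (h : e.card = 2) : ∃ a b, a < b ∧ e = {a, b} := by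
  obtain ⟨a, b, hab, rfl⟩ := card_eq_two.1 h
  rcases lt_or_gt_of_ne hab with h | h
  · exact ⟨a, b, h, rfl⟩
  · exact ⟨b, a, h, pair_comm _ _⟩

theorem cnt' (e1 e2 e3 : Finset (Fin 12)) (h1 : e1.card = 2) (h2 : e2.card = 2) (h3 : e3.card = 2)
    (d1 : Disjoint e1 e2) (d2 : Disjoint e1 e3) (d3 : Disjoint e2 e3) :
    (D.filter fun m => e1 ∈ m ∧ e2 ∈ m ∧ e3 ∈ m).card = 6 := by
  obtain ⟨a, b, hab, rfl⟩ := two h1
  obtain ⟨c, d, hcd, rfl⟩ := two h2
  obtain ⟨e, g, heg, rfl⟩ := two h3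
  simp only [disjoint_insert_left, disjoint_singleton_left, mem_insert, mem_singleton,
    not_or] at d1 d2 d3
  exact cnt a b c d e g hab hcd heg d1 ⟨d2, d3⟩

theorem D_pm {m : Finset (Finset (Fin 12))} (h : m ∈ D) :
    (∀ e ∈ m, e.card = 2) ∧ ∀ v, ∃! e, e ∈ m ∧ v ∈ e := by
  obtain ⟨c, hc, rfl⟩ := mem_image.1 h
  exact ph_pm (F_inv (good (List.mem_toFinset.1 hc)).1)

theorem g0 : (∀ x < 12, dg 0xab8967452301 x ≤ 11 ∧ dg 0xab8967452301 x ≠ x ∧
    dg 0xab8967452301 (dg 0xab8967452301 x) = x) ∧ enc (dg 0xab8967452301) 12 = 0xab8967452301 := by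
  decide +kernel

theorem not_mem : ph (F 0xab8967452301) ∉ D := by
  intro h
  obtain ⟨c, hc, e⟩ := mem_image.1 h
  have hc := good (List.mem_toFinset.1 hc)
  exact hc.2.2 (code_inj hc.1 g0.1 hc.2.1 g0.2 e)

end Pool.Agent.H.MP_5a4a69_co
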